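import Mathlib

/-!
# The commutant of a set of operators and its adjunction: definitions
-/

set_option autoImplicit false

namespace Pool.Agent.Helper8K9.AV

open Polynomial

/-- The polynomial `P` with rational coefficients is squarefree, and `Q z` is the complex conjugate
of `z` for every complex root `z` of `P`. (So the algebra `ℚ[X] / (P)` is a product of number fields
each of which is totally real or a CM field, with the complex conjugation given by `Q`.) -/
def IsConjugationPair (P Q : ℚ[X]) : Prop :=
  Squarefree P ∧ ∀ z : ℂ, aeval z P = 0 → aeval z Q = starRingEnd ℂ z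

/-- The subspace `U` is stable under the maps in `C`. -/
def StableUnder {K V : Type*} [Field K] [AddCommGroup V] [Module K V] (C : Set (V → V))
    (U : Submodule K V) : Prop :=
  ∀ c ∈ C, ∀ x ∈ U, c x ∈ U

/-- Every subspace of `N` stable under the maps in `C` has a complement in `N` stable under the maps
in `C`. -/
def SemisimpleUnder {K V : Type*} [Field K] [AddCommGroup V] [Module K V] (N : Submodule K V)
    (C : Set (V → V)) : Prop :=
  ∀ U ≤ N, StableUnder C U → ∃ U' ≤ N, StableUnder C U' ∧ U ⊓ U' = ⊥ ∧ U ⊔ U' = N

/-- For some operator `e` on `N` with `P(e) = 0`, the adjoint of which for the form `β` is `Q(e)`,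
all linear operators on `N` that commute with the maps in `C` are polynomials in `e` with coefficients
in `K`. -/
def HasCommutant {K V : Type*} [Field K] [CharZero K] [AddCommGroup V] [Module K V]
    (N : Submodule K V) (β : V → V → K) (C : Set (V → V)) (P Q : ℚ[X]) : Prop :=
  ∃ e : Module.End K V, (∀ x ∈ N, e x ∈ N) ∧
    (∀ x ∈ N, aeval e (P.map (algebraMap ℚ K)) x = 0) ∧
    (∀ x ∈ N, ∀ y ∈ N, β (e x) y = β x (aeval e (Q.map (algebraMap ℚ K)) y)) ∧
    ∀ φ : Module.End K V, (∀ x ∈ N, φ x ∈ N) → (∀ c ∈ C, ∀ x ∈ N, φ (c x) = c (φ x)) →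
      ∃ f : K[X], ∀ x ∈ N, φ x = aeval e f x

/-- Over the field `K` every root `x` of `P` is conjugate to `Q(x)`. -/
def LocallyConjugate (K : Type*) [Field K] [CharZero K] (P Q : ℚ[X]) : Prop :=
  ∀ x : AlgebraicClosure K, aeval x (P.map (algebraMap ℚ K)) = 0 →
    minpoly K x = minpoly K (aeval x (Q.map (algebraMap ℚ K)))

end Pool.Agent.Helper8K9.AV
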