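import Pool.Agent.R908.AbAnisoDefs
import Pool.Agent.R908.BalDefs
import Pool.Agent.Helper11K9.Dens.MainDefs
import Pool.Agent.Helper8K9.AV.LinDefs

/-!
# Abelian varieties and other varieties over fields with many Galois symmetries: definitions
-/

set_option autoImplicit false

open CategoryTheory AlgebraicGeometry Polynomial

universe u v

namespace Pool.Agent.Helper8K9.AV0

open Pool.Agent.Helper8K9.AV

open Pool.Agent.H914 Pool.Agent.H914.VarClass Pool.Agent.H914.VarClass.Obj
  Pool.Agent.H914.WeilCohomology Pool.Agent.H281R3.HT Pool.Agent.R908

variable {k : Type u} [Field k] {𝒱 : VarClass k} {ops : CycleOps 𝒱} {W : WeilCohomology.{u, v} ops}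

/-- The operators on the cohomology of `V` given by the algebraic correspondences of degree `0` and by
the symmetries in `𝒢`. -/
def operatorsOf (𝒢 : Set (Symmetry W)) (V : 𝒱.Obj) : Set (W.H V → W.H V) :=
  correspondences W V V.dim ∪ symmetryOperators 𝒢 V

/-- `V` is an abelian variety with the following properties, where `D` is an ample divisor:
* the known properties `IsAbelianType`;
* `H^1(V)` is semisimple under the symmetries in `𝒢` and the correspondences of degree `0`;
* for some operator `e` on `H^1(V)` with `P(e) = 0`, the adjoint of which for the form
  `x, y ↦ tr (x D ^ (dim V - 1) y)` is `Q(e)`, the linear operators on `H^1(V)` that commute with the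
  symmetries and with the correspondences are the polynomials in `e` over the coefficient field. -/
def IsAbelianWith (𝒢 : Set (Symmetry W)) (V : 𝒱.Obj) (P Q : ℚ[X]) : Prop :=
  ∃ m D, IsAbelianType 𝒢 V m D ∧ SemisimpleUnder (W.gr V 1) (operatorsOf 𝒢 V) ∧
    HasCommutant (W.gr V 1) (trForm (W.tr V) (W.cl V D) (V.dim - 1)) (operatorsOf 𝒢 V) P Q

/-- `V` is a variety with the following properties:
* the conjecture D holds for `V`, and the operator `(-1) ^ i` on the transcendental cohomology of
  degree `i` is algebraic;
* the transcendental cohomology `T(V)` (the orthogonal complement of all algebraic classes) is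
  semisimple under the symmetries in `𝒢` and the correspondences of degree `0`;
* for some operator `e` on `T(V)` with `P(e) = 0`, the adjoint of which for the cup product form is
  `Q(e)`, the linear operators on `T(V)` that commute with the symmetries and with the
  correspondences are polynomials in `e` over the coefficient field. -/
def IsGeneralWith (𝒢 : Set (Symmetry W)) (V : 𝒱.Obj) (P Q : ℚ[X]) : Prop :=
  HomEqNum W V ∧ SignAlgebraic W V ∧ SemisimpleUnder (transcendental W V) (operatorsOf 𝒢 V) ∧
    HasCommutant (transcendental W V) (fun a b => W.tr V (a * b)) (operatorsOf 𝒢 V) P Q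

end Pool.Agent.Helper8K9.AV0
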