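import Pool.Agent.Helper11K9.Dens.DensA
import Pool.Agent.Helper8K9.AV.LinDefs

/-!
# The density of the primes at which all roots are conjugate to their complex conjugates
-/

set_option autoImplicit false
set_option linter.unusedSectionVars false

namespace Pool.Agent.Helper8K9.AV

open Polynomial NumberField Pool.Agent.W401.Cheb Pool.Agent.Helper11K9.Dens

variable {J : Type} [Fintype J] {P Q : J → ℚ[X]}

section Basic

variable (hP0 : ∀ j, P j ≠ 0)

include hP0 in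
lemma finite_pairs' : {z : ℂ | 0 < z.im ∧ ∃ j, aeval z (P j) = 0}.Finite := by
  classical
  refine (Set.finite_iUnion (fun j => ((P j).rootSet_finite ℂ))).subset ?_
  rintro z ⟨-, j, hz⟩
  exact Set.mem_iUnion.2 ⟨j, mem_rootSet.2 ⟨hP0 j, hz⟩⟩

include hP0 in
lemma finrank_oddU' : Module.Finite ℚ (oddU P) ∧
    Module.finrank ℚ (oddU P) ≤ pairNumber P := by
  classical
  have hfin := finite_pairs' hP0
  have : Fintype {z : ℂ | 0 < z.im ∧ ∃ j, aeval z (P j) = 0} := hfin.fintype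
  let F : oddU P →ₗ[ℚ] ({z : ℂ | 0 < z.im ∧ ∃ j, aeval z (P j) = 0} → ℚ) :=
    { toFun := fun f x => f.1 () x.1
      map_add' := fun _ _ => rfl
      map_smul' := fun _ _ => rfl }
  have hF : Function.Injective F := by
    rw [← LinearMap.ker_eq_bot, eq_bot_iff]
    rintro ⟨f, hf⟩ h0
    rw [Submodule.mem_bot]
    apply Subtype.ext
    have hpos : ∀ z : ℂ, 0 < z.im → f () z = 0 := by
      intro z hz
      by_cases h : ∃ j, aeval z (P j) = 0
      · exact congrFun (LinearMap.mem_ker.1 h0) ⟨z, hz, h⟩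
      · push Not at h
        exact hf.1 z h
    funext u z
    obtain rfl : u = () := rfl
    change f () z = 0
    rcases lt_trichotomy z.im 0 with h | h | h
    · have h1 := hpos (starRingEnd ℂ z) (by rw [Complex.conj_im]; linarith)
      rw [hf.2] at h1
      linarith
    · have h1 := hf.2 z
      rw [Complex.conj_eq_iff_im.2 h] at h1
      linarith
    · exact hpos z h
  refine ⟨Module.Finite.of_injective F hF, ?_⟩
  refine (LinearMap.finrank_le_finrank_of_injective hF).trans ?_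
  rw [Module.finrank_fintype_fun_eq_card, pairNumber, Set.ncard_eq_toFinset_card',
    Set.toFinset_card]

include hP0 in
/-- The splitting field. -/
lemma exists_E' : ∃ E : IntermediateField ℚ ℂ,
    (∃ _ : NumberField E, IsGalois ℚ E) ∧ (∀ j (z : ℂ), aeval z (P j) = 0 → z ∈ E) ∧
      ((∏ j, P j).map (algebraMap ℚ E)).Splits := by
  classical
  set Q : ℚ[X] := ∏ j, P j with hQ
  have hQ0 : Q ≠ 0 := Finset.prod_ne_zero_iff.2 (fun j _ => hP0 j)
  have hs : Q.IsSplittingField ℚ (IntermediateField.adjoin ℚ (Q.rootSet ℂ)) :=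
    IntermediateField.adjoin_rootSet_isSplittingField (IsAlgClosed.splits _)
  have hfd : FiniteDimensional ℚ (IntermediateField.adjoin ℚ (Q.rootSet ℂ)) :=
    IsSplittingField.finiteDimensional _ Q
  have hn : Normal ℚ (IntermediateField.adjoin ℚ (Q.rootSet ℂ)) :=
    Normal.of_isSplittingField Q
  refine ⟨IntermediateField.adjoin ℚ (Q.rootSet ℂ), ⟨{ }, { }⟩, ?_, hs.splits⟩
  intro j z hz
  apply IntermediateField.subset_adjoin
  rw [mem_rootSet]
  refine ⟨hQ0, ?_⟩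
  rw [hQ, map_prod]
  exact Finset.prod_eq_zero (Finset.mem_univ j) hz

include hP0 in
/-- The density of the primes with a Frobenius element without invariants. -/
theorem density_aux' {J' : Type} [Fintype J'] (p : ℕ)
    (E : IntermediateField ℚ ℂ)
    [NumberField E] [IsGalois ℚ E] (hspl : ((∏ j, P j).map (algebraMap ℚ E)).Splits)
    (V : Submodule ℚ (J' → ℂ → ℚ)) [Module.Finite ℚ V]
    (hV : ∀ σ, ∀ f ∈ V, fnRep E J' σ f ∈ V) (c : Gal(E/ℚ)) (hc : ∀ f ∈ V, fnRep E J' c f = -f)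
    (K : ℕ → Type) [∀ ℓ, Field (K ℓ)] [∀ ℓ, CharZero (K ℓ)]
    (hK : ∀ (ℓ : ℕ) [Fact ℓ.Prime], ℓ ≠ p → Nonempty (K ℓ ≃+* ℚ_[ℓ])) (T : Set ℕ)
    (hT : ∀ (ℓ : ℕ) [Fact ℓ.Prime], ℓ ≠ p → (∀ (τ : E →+* AlgebraicClosure (K ℓ)),
      ∃ σ ∈ noInv E V, ∀ j, ∀ z : E, aeval z (P j) = 0 →
        minpoly (K ℓ) (τ (σ z)) = minpoly (K ℓ) (τ z)) → ℓ ∈ T) :
    HasLowerDensity T ((1 / 2 : ℝ) ^ Module.finrank ℚ V) := by
  classical
  have hQ0 : (∏ j, P j) ≠ 0 := Finset.prod_ne_zero_iff.2 (fun j _ => hP0 j)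
  obtain ⟨D, hD, hfrob⟩ := frob_minpoly E (∏ j, P j) hQ0 hspl
  have h1 := lowerDensity_of_frob E (noInv E V) (fun g hg h => noInv_conj E hV g hg h) T
    (D * max p 1)
    (Nat.mul_pos hD (lt_max_of_lt_right one_pos)) (by
      intro ℓ hℓF hℓ hφ
      have hℓD : ¬ ℓ ∣ D := fun h => hℓ (h.mul_right _)
      have hℓp : ℓ ≠ p := by
        rintro rfl
        apply hℓ
        rw [max_eq_left (hℓF.out.one_lt.le)]
        exact dvd_mul_left _ _
      refine hT ℓ hℓp (fun τ => ?_)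
      obtain ⟨κ⟩ := hK ℓ hℓp
      obtain ⟨φ, h2⟩ := hfrob ℓ hℓD (K ℓ) κ (AlgebraicClosure (K ℓ)) τ
      obtain ⟨σ, hσ, hφσ⟩ := hφ φ
      refine ⟨σ, hσ, fun j z hz => h2 σ hφσ z ?_⟩
      rw [map_prod]
      exact Finset.prod_eq_zero (Finset.mem_univ j) hz)
  refine h1.mono ?_
  have h2 := card_noInv E hV c hc
  have h3 : (0 : ℝ) < Nat.card Gal(E/ℚ) := by exact_mod_cast Nat.card_pos
  have h4 : (Nat.card Gal(E/ℚ) : ℝ) ≤ 2 ^ Module.finrank ℚ V * Nat.card (noInv E V) := by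
    exact_mod_cast h2
  rw [le_div_iff₀ h3, one_div, inv_pow]
  rw [inv_mul_le_iff₀ (by positivity)]
  exact h4

end Basic

section Conj

variable (hPQ : ∀ j, IsConjugationPair (P j) (Q j)) {E : IntermediateField ℚ ℂ}
  (hE : ∀ j (z : ℂ), aeval z (P j) = 0 → z ∈ E)

include hPQ hE in
/-- The complex conjugation commutes with the Galois group on the roots. -/
lemma pm_conj' (σ : Gal(E/ℚ)) {j : J} {z : ℂ} (hz : aeval z (P j) = 0) :
    (pm E σ)⁻¹ (starRingEnd ℂ z) = starRingEnd ℂ ((pm E σ)⁻¹ z) := by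
  obtain ⟨z', rfl⟩ : ∃ z' : E, (z' : ℂ) = z := ⟨⟨z, hE j z hz⟩, rfl⟩
  have hz' : aeval z' (P j) = 0 := (root_coe E).1 hz
  have h1 : starRingEnd ℂ (z' : ℂ) = ((aeval z' (Q j) : E) : ℂ) := by
    rw [← (hPQ j).2 _ hz, coe_aeval]
  have h2 : starRingEnd ℂ ((σ⁻¹ z' : E) : ℂ) = ((aeval (σ⁻¹ z') (Q j) : E) : ℂ) := by
    rw [← (hPQ j).2 _ ((root_coe E).2 ((root_gal E σ⁻¹).2 hz')), coe_aeval]
  rw [h1, pm_inv_apply, pm_inv_apply, h2]
  congr 1
  exact (aeval_algHom_apply ((σ⁻¹ : Gal(E/ℚ)) : E →ₐ[ℚ] E) z' (Q j)).symm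

include hPQ hE in
lemma oddU_stable' (σ : Gal(E/ℚ)) : ∀ f ∈ oddU P, fnRep E Unit σ f ∈ oddU P := by
  rintro f ⟨h1, h2⟩
  refine ⟨fun z hz => ?_, fun z => ?_⟩
  · rw [fnRep_apply]
    exact h1 _ (fun j h => hz j ((root_pm σ).1 h))
  · rw [fnRep_apply, fnRep_apply]
    by_cases hz : ∃ j, aeval z (P j) = 0
    · obtain ⟨j, hz⟩ := hz
      rw [pm_conj' hPQ hE σ hz, h2]
    · push Not at hz
      rw [h1 _ (fun j h => hz j ((root_pm σ).1 h)),
        h1 _ (fun j h => hz j (conj_root.1 ((root_pm σ).1 h))), neg_zero]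

include hPQ hE in
/-- **All roots are conjugate to their complex conjugates.** -/
theorem conj_of_noInv [FiniteDimensional ℚ E] [Normal ℚ E]
    {K L' : Type*} [Field K] [Field L'] [CharZero L'] [Algebra K L'] (τ : E →+* L')
    {σ : Gal(E/ℚ)}
    (hσ : ∀ j, ∀ z : E, aeval z (P j) = 0 → minpoly K (τ (σ z)) = minpoly K (τ z))
    (hnI : σ ∈ noInv E (oddU P)) (j : J) (x : L') (hx : aeval x (P j) = 0) :
    minpoly K x = minpoly K (aeval x (Q j)) := by
  classical
  have hP0 : ∀ j, P j ≠ 0 := fun j => (hPQ j).1.ne_zero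
  obtain ⟨c, hc⟩ := exists_conj E
  obtain ⟨z, hz, rfl⟩ : ∃ z : E, aeval z (P j) = 0 ∧ τ z = x := by
    have h3 : x ∈ (P j).rootSet L' := by
      rw [mem_rootSet]
      exact ⟨hP0 j, hx⟩
    rw [← (splits_E E hE j).image_rootSet (RingHom.toRatAlgHom τ)] at h3
    obtain ⟨z, hz, hzx⟩ := h3
    exact ⟨z, (mem_rootSet.1 hz).2, hzx⟩
  have hcz : aeval (τ z) (Q j) = τ (c z) := by
    have h1 : aeval (τ z) (Q j) = τ (aeval z (Q j)) := by
      have h2 := aeval_algHom_apply (RingHom.toRatAlgHom τ) z (Q j)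
      exact h2
    rw [h1]
    congr 1
    apply Subtype.ext
    rw [hc, ← (hPQ j).2 _ ((root_coe E).2 hz), coe_aeval]
  rw [hcz]
  -- the function
  set R : Finset E := Finset.univ.biUnion (fun i => rootsE E (P i)) with hR
  have hmR : ∀ y : E, y ∈ R ↔ ∃ i, aeval y (P i) = 0 := by
    intro y
    rw [hR, Finset.mem_biUnion]
    constructor
    · rintro ⟨i, -, hi⟩
      exact ⟨i, (mem_rootsE E (hP0 i)).1 hi⟩
    · rintro ⟨i, hi⟩
      exact ⟨i, Finset.mem_univ _, (mem_rootsE E (hP0 i)).2 hi⟩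
  by_contra hne
  set O := R.filter (fun y => minpoly K (τ y) = minpoly K (τ z)) with hO
  have hOs : ∀ y ∈ O, σ y ∈ O := by
    intro y hy
    rw [hO, Finset.mem_filter, hmR] at hy ⊢
    obtain ⟨⟨i, hi⟩, hy2⟩ := hy
    exact ⟨⟨i, (root_gal E σ).2 hi⟩, by rw [hσ i y hi, hy2]⟩
  set f : Unit → ℂ → ℚ := fun _ y => (if y = (z : ℂ) then 1 else 0) -
    (if y = starRingEnd ℂ (z : ℂ) then 1 else 0) with hf
  have hfm : f ∈ oddU P := by
    refine ⟨fun y hy => ?_, fun y => ?_⟩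
    · rw [hf]
      beta_reduce
      rw [if_neg, if_neg, sub_zero]
      · rintro rfl
        exact hy j (conj_root.2 ((root_coe E).2 hz))
      · rintro rfl
        exact hy j ((root_coe E).2 hz)
    · rw [hf]
      beta_reduce
      rw [neg_sub]
      congr 1
      · congr 1
        apply propext
        constructor
        · intro h
          rw [← h, Complex.conj_conj]
        · intro h
          rw [h, Complex.conj_conj]
      · congr 1
        apply propext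
        exact (starRingEnd ℂ).injective.eq_iff
  have h1 := sum_stable E (oddU_stable' hPQ hE) hnI hfm () O hOs
  rw [hf] at h1
  beta_reduce at h1
  rw [Finset.sum_sub_distrib] at h1
  have hzO : z ∈ O := by
    rw [hO, Finset.mem_filter, hmR]
    exact ⟨⟨j, hz⟩, rfl⟩
  rw [Finset.sum_eq_single_of_mem z hzO, Finset.sum_eq_zero] at h1
  · norm_num at h1
  · intro y hy
    rw [if_neg]
    intro h
    rw [← hc] at h
    have h2 : y = c z := Subtype.ext h
    rw [hO, Finset.mem_filter, h2] at hy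
    exact hne hy.2.symm
  · intro y _ hyz
    rw [if_neg]
    intro h
    exact hyz (Subtype.ext h)

end Conj

/-- **The density of the primes at which all roots are conjugate to their complex conjugates.** -/
theorem density_conj (hPQ : ∀ j, IsConjugationPair (P j) (Q j)) (p : ℕ)
    (K : ℕ → Type) [∀ ℓ, Field (K ℓ)] [∀ ℓ, CharZero (K ℓ)]
    (hK : ∀ (ℓ : ℕ) [Fact ℓ.Prime], ℓ ≠ p → Nonempty (K ℓ ≃+* ℚ_[ℓ])) (T : Set ℕ)
    (hT : ∀ (ℓ : ℕ) [Fact ℓ.Prime], ℓ ≠ p → (∀ j, LocallyConjugate (K ℓ) (P j) (Q j)) → ℓ ∈ T) :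
    HasLowerDensity T ((1 / 2 : ℝ) ^ pairNumber P) := by
  have hP0 : ∀ j, P j ≠ 0 := fun j => (hPQ j).1.ne_zero
  obtain ⟨E, ⟨_, _⟩, hE, hspl⟩ := exists_E' hP0
  obtain ⟨c, hc⟩ := exists_conj E
  have hfin := finrank_oddU' hP0
  have := hfin.1
  refine HasLowerDensity.mono (density_aux' hP0 p E hspl (oddU P) (oddU_stable' hPQ hE) c
    (fun f hf => oddU_conj hE hc hf) K hK T ?_)
    (pow_le_pow_of_le_one (by norm_num) (by norm_num) hfin.2)
  intro ℓ _ hℓ hτ
  obtain ⟨τ⟩ : Nonempty (E →+* AlgebraicClosure (K ℓ)) := by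
    have : CharZero (AlgebraicClosure (K ℓ)) := inferInstance
    exact ⟨(IsAlgClosed.lift (R := ℚ) (S := E) (M := AlgebraicClosure (K ℓ)) : _ →ₐ[ℚ] _)⟩
  obtain ⟨σ, hσ, hmin⟩ := hτ τ
  refine hT ℓ hℓ (fun j x hx => ?_)
  rw [aeval_map_algebraMap] at hx ⊢
  exact conj_of_noInv hPQ hE τ hmin hσ j x hx

/-- Real roots are equal to their complex conjugates. -/
theorem local_of_real {P Q : ℚ[X]} (hPQ : IsConjugationPair P Q)
    (hre : ∀ z : ℂ, aeval z P = 0 → z.im = 0) (K : Type*) [Field K] [CharZero K] :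
    LocallyConjugate K P Q := by
  have hdvd : P ∣ Q - X := by
    have hP0 : P ≠ 0 := hPQ.1.ne_zero
    by_cases hg : Q - X = 0
    · rw [hg]
      exact dvd_zero _
    rw [← Polynomial.map_dvd_map' (algebraMap ℚ ℂ)]
    have hPL : P.map (algebraMap ℚ ℂ) ≠ 0 :=
      (Polynomial.map_ne_zero_iff (algebraMap ℚ ℂ).injective).2 hP0
    have hgL : (Q - X).map (algebraMap ℚ ℂ) ≠ 0 :=
      (Polynomial.map_ne_zero_iff (algebraMap ℚ ℂ).injective).2 hg
    have hsep : (P.map (algebraMap ℚ ℂ)).Separable :=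
      ((PerfectField.separable_iff_squarefree).2 hPQ.1).map
    refine (IsAlgClosed.splits (P.map (algebraMap ℚ ℂ))).dvd_of_roots_le_roots hPL ?_
    rw [Multiset.le_iff_subset (nodup_roots hsep)]
    intro x hx
    rw [mem_roots hPL, IsRoot.def, eval_map_algebraMap] at hx
    rw [mem_roots hgL, IsRoot.def, eval_map_algebraMap, map_sub, aeval_X, hPQ.2 x hx,
      Complex.conj_eq_iff_im.2 (hre x hx), sub_self]
  intro x hx
  rw [aeval_map_algebraMap] at hx ⊢
  obtain ⟨g, hg⟩ := hdvd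
  have h1 := congrArg (aeval x) hg
  rw [map_mul, hx, zero_mul, map_sub, aeval_X, sub_eq_zero] at h1
  rw [h1]

end Pool.Agent.Helper8K9.AV
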