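import Mathlib
import Pool.Agent.Helper8K9.AV.LinDefs

/-!
# Subspaces which are not isotropic
-/

set_option autoImplicit false

namespace Pool.Agent.Helper8K9.AV

open Polynomial

set_option linter.unusedSectionVars false

variable {K V : Type*} [Field K] [CharZero K] [AddCommGroup V] [Module K V]

/-- Polynomials in an operator preserve the stable subspaces. -/
theorem aeval_mem {N : Submodule K V} {e : Module.End K V} (he : ∀ x ∈ N, e x ∈ N) (f : K[X])
    {x : V} (hx : x ∈ N) : aeval e f x ∈ N := by
  induction f using Polynomial.induction_on' generalizing x with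
  | add p q hp hq =>
    rw [map_add, LinearMap.add_apply]
    exact Submodule.add_mem _ (hp hx) (hq hx)
  | monomial n a =>
    rw [aeval_monomial, Module.algebraMap_end_eq_smul_id, Module.End.mul_apply]
    refine Submodule.smul_mem _ _ ?_
    induction n generalizing x with
    | zero => exact hx
    | succ n ih =>
      rw [pow_succ, Module.End.mul_apply]
      exact ih (he x hx)

/-- The restriction of a polynomial in an operator. -/
theorem aeval_restrict {N : Submodule K V} {e : Module.End K V} (he : ∀ x ∈ N, e x ∈ N) (f : K[X])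
    (x : N) : ((aeval (LinearMap.restrict e he) f x : N) : V) = aeval e f x := by
  induction f using Polynomial.induction_on' generalizing x with
  | add p q hp hq =>
    rw [map_add, map_add, LinearMap.add_apply, LinearMap.add_apply, Submodule.coe_add, hp, hq]
  | monomial n a =>
    rw [aeval_monomial, aeval_monomial, Module.algebraMap_end_eq_smul_id,
      Module.algebraMap_end_eq_smul_id, Module.End.mul_apply, Module.End.mul_apply]
    change a • (((LinearMap.restrict e he) ^ n) x : V) = a • (e ^ n) x
    congr 1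
    induction n generalizing x with
    | zero => rfl
    | succ n ih =>
      rw [pow_succ, pow_succ, Module.End.mul_apply, Module.End.mul_apply, ih]
      rfl

/-- The adjoint of a polynomial in an operator. -/
theorem adjoint_aeval {N : Submodule K V} {e A : Module.End K V} (he : ∀ x ∈ N, e x ∈ N)
    (hA : ∀ x ∈ N, A x ∈ N) {B : V →ₗ[K] V →ₗ[K] K}
    (hB : ∀ x ∈ N, ∀ y ∈ N, B (e x) y = B x (A y)) (f : K[X]) {x y : V} (hx : x ∈ N)
    (hy : y ∈ N) : B (aeval e f x) y = B x (aeval A f y) := by
  induction f using Polynomial.induction_on' with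
  | add p q hp hq =>
    rw [map_add, map_add, LinearMap.add_apply, LinearMap.add_apply, map_add, map_add,
      LinearMap.add_apply, hp, hq]
  | monomial n a =>
    rw [aeval_monomial, aeval_monomial, Module.algebraMap_end_eq_smul_id, Module.End.mul_apply,
      Module.End.mul_apply]
    change B (a • (e ^ n) x) y = B x (a • (A ^ n) y)
    rw [map_smul, LinearMap.smul_apply, map_smul]
    congr 1
    induction n generalizing y with
    | zero => rfl
    | succ n ih =>
      have h1 : (e ^ n) x ∈ N := by
        have h2 := aeval_mem he (X ^ n) hx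
        rwa [aeval_X_pow] at h2
      rw [pow_succ', Module.End.mul_apply, hB _ h1 _ hy, ih (hA y hy), pow_succ,
        Module.End.mul_apply]

/-- A polynomial over a field of characteristic zero which vanishes at all roots of a squarefree
polynomial is a multiple of it. -/
theorem dvd_of_roots {L : Type*} [Field L] [IsAlgClosed L] [Algebra K L] {μ g : K[X]}
    (hμ : Squarefree μ) (h : ∀ x : L, aeval x μ = 0 → aeval x g = 0) : μ ∣ g := by
  rw [← Polynomial.map_dvd_map' (algebraMap K L)]
  by_cases hg : g = 0
  · rw [hg, Polynomial.map_zero]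
    exact dvd_zero _
  have hμ0 : μ ≠ 0 := hμ.ne_zero
  have hμL : μ.map (algebraMap K L) ≠ 0 :=
    (Polynomial.map_ne_zero_iff (algebraMap K L).injective).2 hμ0
  have hgL : g.map (algebraMap K L) ≠ 0 :=
    (Polynomial.map_ne_zero_iff (algebraMap K L).injective).2 hg
  have hsep : (μ.map (algebraMap K L)).Separable :=
    ((PerfectField.separable_iff_squarefree).2 hμ).map
  refine (IsAlgClosed.splits (μ.map (algebraMap K L))).dvd_of_roots_le_roots hμL ?_
  rw [Multiset.le_iff_subset (nodup_roots hsep)]
  intro x hx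
  rw [mem_roots hμL, IsRoot.def, eval_map_algebraMap] at hx
  rw [mem_roots hgL, IsRoot.def, eval_map_algebraMap]
  exact h x hx



/-- **Stable subspaces are not isotropic.** -/
theorem pairs_of_commutant {N : Submodule K V} {B : V →ₗ[K] V →ₗ[K] K} {C : Set (V → V)}
    {P Q : ℚ[X]} (hP : Squarefree P) (hC : ∀ c ∈ C, ∀ x y, c (x + y) = c x + c y)
    (hnd : ∀ x ∈ N, (∀ y ∈ N, B x y = 0) → x = 0) (hss : SemisimpleUnder N C)
    (hcom : HasCommutant N (fun x y => B x y) C P Q) (hloc : LocallyConjugate K P Q)
    {U : Submodule K V} (hUN : U ≤ N) (hU0 : U ≠ ⊥) (hst : StableUnder C U) :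
    ∃ x ∈ U, ∃ y ∈ U, B x y ≠ 0 := by
  classical
  obtain ⟨U', hU'N, hst', hinf, hsup⟩ := hss U hUN hst
  obtain ⟨N', hN'⟩ := Submodule.exists_isCompl N
  -- the projection
  have hcompl : IsCompl U (U' ⊔ N') := by
    constructor
    · rw [Submodule.disjoint_def]
      intro x hx hx'
      obtain ⟨u, hu, n, hn, hun⟩ := Submodule.mem_sup.1 hx'
      have h1 : n ∈ N := by
        have h2 : n = x - u := by rw [← hun]; abel
        rw [h2]
        exact Submodule.sub_mem _ (hUN hx) (hU'N hu)
      have h2 : n = 0 := (Submodule.disjoint_def.1 hN'.disjoint) n h1 hn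
      rw [h2, add_zero] at hun
      have h3 : x ∈ U ⊓ U' := ⟨hx, hun ▸ hu⟩
      rw [hinf] at h3
      exact (Submodule.mem_bot _).1 h3
    · rw [codisjoint_iff, ← sup_assoc, hsup]
      exact hN'.sup_eq_top
  set φ : Module.End K V := U.subtype ∘ₗ U.projectionOnto (U' ⊔ N') hcompl with hφ
  have hφU : ∀ x ∈ U, φ x = x := by
    intro x hx
    rw [hφ, LinearMap.comp_apply]
    have h1 := Submodule.projectionOnto_apply_left hcompl (⟨x, hx⟩ : U)
    rw [show U.projectionOnto (U' ⊔ N') hcompl x = ⟨x, hx⟩ from h1]
    rfl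
  have hφU' : ∀ x ∈ U', φ x = 0 := by
    intro x hx
    rw [hφ, LinearMap.comp_apply]
    have h1 : U.projectionOnto (U' ⊔ N') hcompl x = 0 := by
      rw [Submodule.projectionOnto_apply_eq_zero_iff]
      exact Submodule.mem_sup_left hx
    rw [h1, map_zero]
  have hφm : ∀ x, φ x ∈ U := fun x => (U.projectionOnto (U' ⊔ N') hcompl x).2
  have hdec : ∀ x ∈ N, ∃ u ∈ U, ∃ u' ∈ U', u + u' = x := by
    intro x hx
    rw [← hsup] at hx
    exact Submodule.mem_sup.1 hx
  obtain ⟨e, heN, heP, headj, hcent⟩ := hcom
  obtain ⟨f, hf⟩ := hcent φ (fun x _ => hUN (hφm x)) (by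
    intro c hc x hx
    obtain ⟨u, hu, u', hu', rfl⟩ := hdec x hx
    rw [hC c hc, map_add, map_add, hφU _ hu, hφU' _ hu', hφU _ (hst c hc _ hu),
      hφU' _ (hst' c hc _ hu'), add_zero, add_zero])
  -- the minimal polynomial
  set E : Module.End K N := LinearMap.restrict e heN with hE
  set μ := minpoly K E with hμ
  have hμP : μ ∣ P.map (algebraMap ℚ K) := by
    refine minpoly.dvd K E ?_
    apply LinearMap.ext
    intro x
    apply Subtype.ext
    rw [hE, aeval_restrict heN]
    exact heP x x.2
  have hPsq : Squarefree (P.map (algebraMap ℚ K)) :=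
    (PerfectField.separable_iff_squarefree).1 (((PerfectField.separable_iff_squarefree).2 hP).map)
  have hμsq : Squarefree μ := hPsq.squarefree_of_dvd hμP
  have hidem : μ ∣ f ^ 2 - f := by
    refine minpoly.dvd K E ?_
    apply LinearMap.ext
    intro x
    apply Subtype.ext
    rw [hE, aeval_restrict heN, map_sub, map_pow, LinearMap.sub_apply, pow_two,
      Module.End.mul_apply, ← hf x x.2, ← hf _ (hUN (hφm _)), hφU _ (hφm _), sub_self]
    rfl
  set Q' := Q.map (algebraMap ℚ K) with hQ'
  have hdvd : μ ∣ f.comp Q' - f := by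
    refine dvd_of_roots (L := AlgebraicClosure K) hμsq fun x hx => ?_
    have h1 : aeval x (P.map (algebraMap ℚ K)) = 0 := by
      obtain ⟨g, hg⟩ := hμP
      rw [hg, map_mul, hx, zero_mul]
    have h2 : IsConjRoot K x (aeval x Q') := hloc x h1
    obtain ⟨σ, hσ⟩ := h2.exists_algEquiv
    have h3 : aeval x f ^ 2 = aeval x f := by
      obtain ⟨g, hg⟩ := hidem
      have h4 := congrArg (aeval x) hg
      rw [map_mul, hx, zero_mul, map_sub, map_pow, sub_eq_zero] at h4
      exact h4
    have h4 : ∀ τ : AlgebraicClosure K ≃ₐ[K] AlgebraicClosure K, τ (aeval x f) = aeval x f := by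
      intro τ
      have h5 : aeval x f * (aeval x f - 1) = 0 := by
        rw [mul_sub, mul_one, ← pow_two, h3, sub_self]
      rcases mul_eq_zero.1 h5 with h6 | h6
      · rw [h6, map_zero]
      · rw [sub_eq_zero.1 h6, map_one]
    rw [map_sub, aeval_comp, sub_eq_zero]
    have h5 : σ (aeval (aeval x Q') f) = aeval x f := by
      have h6 := aeval_algHom_apply (σ : AlgebraicClosure K →ₐ[K] AlgebraicClosure K)
        (aeval x Q') f
      have h7 : (σ : AlgebraicClosure K →ₐ[K] AlgebraicClosure K) (aeval x Q') = x := hσ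
      rw [h7] at h6
      exact h6.symm
    rw [← σ.symm_apply_apply (aeval (aeval x Q') f), h5, h4]
  have hself : ∀ x ∈ N, aeval (aeval e Q') f x = aeval e f x := by
    intro x hx
    obtain ⟨g, hg⟩ := hdvd
    have h1 : aeval E (f.comp Q' - f) = 0 := by
      rw [hg, map_mul, hμ, minpoly.aeval, zero_mul]
    have h2 := congrArg (fun F : Module.End K N => (F ⟨x, hx⟩ : V)) h1
    beta_reduce at h2
    rw [hE, aeval_restrict heN, map_sub, LinearMap.sub_apply, aeval_comp] at h2
    exact sub_eq_zero.1 h2
  have hadj : ∀ x ∈ N, ∀ y ∈ N, B (φ x) y = B x (φ y) := by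
    intro x hx y hy
    rw [hf x hx, adjoint_aeval heN (fun z hz => aeval_mem heN Q' hz) headj f hx hy, hself y hy,
      hf y hy]
  by_contra hcon
  push Not at hcon
  apply hU0
  rw [eq_bot_iff]
  intro x hx
  rw [Submodule.mem_bot]
  refine hnd x (hUN hx) fun y hy => ?_
  rw [← hφU x hx, hadj x (hUN hx) y hy]
  exact hcon x hx _ (hφm y)

end Pool.Agent.Helper8K9.AV
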