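import Pool.Agent.R908.KoC
import Pool.Agent.TH125.Gal.Dec
import Pool.Agent.Helper8K9.AV.Lin
import Pool.Agent.Helper8K9.AV.Dens
import Pool.Agent.Helper8K9.AV.Defs0
import Pool.Agent.Helper11K9.Dens.Dom

/-!
# The standard conjectures for products of abelian varieties and other varieties
-/

set_option autoImplicit false

open CategoryTheory AlgebraicGeometry Polynomial

universe u v

namespace Pool.Agent.Helper8K9.AV0

open Pool.Agent.Helper8K9.AV

open Pool.Agent.H914 Pool.Agent.H914.VarClass Pool.Agent.H914.VarClass.Obj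
  Pool.Agent.H914.WeilCohomology Pool.Agent.H281R3.HT Pool.Agent.R908 Pool.Agent.Helper11K9.Dens

variable {k : Type u} [Field k] {𝒱 : VarClass k} {ops : CycleOps 𝒱} {W : WeilCohomology.{u, v} ops}
  {𝒢 : Set (Symmetry W)} {V : 𝒱.Obj} {P Q : ℚ[X]}

/-- If a combination of correspondences pairs two classes then so does a correspondence. -/
theorem exists_corr {δ : ℤ} {θ : W.H V →ₗ[W.K] W.H V} (hθ : θ ∈ KOp W V V δ) {x y : W.H V}
    (h : W.tr V (x * θ y) ≠ 0) :
    ∃ θ' ∈ ⋃ p, correspondences W V p, W.tr V (x * θ' y) ≠ 0 := by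
  by_contra hcon
  push Not at hcon
  apply h
  clear h
  induction hθ using Submodule.span_induction with
  | mem θ hθ =>
    obtain ⟨p, -, z, hz, rfl⟩ := hθ
    have h1 := hcon _ (Set.mem_iUnion.2 ⟨p, z, hz, rfl⟩)
    rw [corr_apply]
    exact h1
  | zero => rw [LinearMap.zero_apply, mul_zero, map_zero]
  | add a b _ _ ha hb => rw [LinearMap.add_apply, mul_add, map_add, ha, hb, add_zero]
  | smul c a _ ha => rw [LinearMap.smul_apply, mul_smul_comm, map_smul, ha, smul_zero]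

theorem operators_add (c : W.H V → W.H V) (hc : c ∈ operatorsOf 𝒢 V) (x y : W.H V) :
    c (x + y) = c x + c y := by
  rcases hc with ⟨z, -, rfl⟩ | ⟨S, -, rfl⟩
  · beta_reduce
    rw [map_add, mul_add, map_add]
  · exact map_add _ _ _

/-- The form `x, y ↦ tr (x ξ ^ n y)`. -/
noncomputable def lform (W : WeilCohomology.{u, v} ops) (V : 𝒱.Obj) (ξ : W.H V) (n : ℕ) :
    W.H V →ₗ[W.K] W.H V →ₗ[W.K] W.K :=
  ((LinearMap.mul W.K (W.H V)).compr₂ (W.tr V)).compl₂ (LinearMap.mulLeft W.K (ξ ^ n))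

theorem lform_apply (ξ : W.H V) (n : ℕ) (x y : W.H V) :
    lform W V ξ n x y = W.tr V (x * (ξ ^ n * y)) := rfl

theorem lef_pow (ξ : W.H V) (n : ℕ) (y : W.H V) :
    ((LinearMap.mulLeft W.K ξ) ^ n) y = ξ ^ n * y := by
  induction n with
  | zero => rw [pow_zero, pow_zero, one_mul]; rfl
  | succ n ih =>
    rw [pow_succ', pow_succ', Module.End.mul_apply, ih, mul_assoc]
    rfl

/-- **Abelian varieties.** -/
theorem anisotropicOne (hP : Squarefree P) (hloc : LocallyConjugate W.K P Q)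
    (h : IsAbelianWith 𝒢 V P Q) :
    (∃ m D, IsAbelianType 𝒢 V m D) ∧ AnisotropicOne 𝒢 V := by
  obtain ⟨m, D, hA, hss, hcom⟩ := h
  refine ⟨⟨m, D, hA⟩, ?_⟩
  intro U hU hU0 hst
  have hnd : ∀ x ∈ W.gr V 1, (∀ y ∈ W.gr V 1, lform W V (W.cl V D) (V.dim - 1) x y = 0) →
      x = 0 := by
    intro x hx hxy
    by_cases hdim : V.dim = 0
    · rw [W.gr_eq_bot V 1 (by omega), Submodule.mem_bot] at hx
      exact hx
    apply W.nondeg
    intro b
    refine gr_induction (W.isInternal V) (p := fun b => W.tr V (x * b) = 0) ?_ ?_ b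
    · intro i b hb
      by_cases hi : i = 2 * V.dim - 1
      · subst hi
        obtain ⟨y, hy, hyb⟩ := (hA.lefschetz 1 (by omega)).2 b hb
        rw [lef_pow] at hyb
        rw [← hyb]
        exact hxy y hy
      · exact W.tr_eq_zero (W.mul_mem hx hb) (by omega)
    · intro a b ha hb
      rw [mul_add, map_add, ha, hb, add_zero]
  obtain ⟨x, hx, y, hy, hxy⟩ := pairs_of_commutant (B := lform W V (W.cl V D) (V.dim - 1)) hP
    (fun c hc => operators_add (𝒢 := 𝒢) c hc) hnd hss hcom hloc hU hU0 hst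
  rw [lform_apply, ← lefP_eq] at hxy
  obtain ⟨θ, hθ, h1⟩ := exists_corr (lefP_mem hA.divisor _) hxy
  exact ⟨θ, hθ, x, hx, y, hy, h1⟩

/-- **Other varieties.** -/
theorem anisotropic (hP : Squarefree P) (hloc : LocallyConjugate W.K P Q)
    (h : IsGeneralWith 𝒢 V P Q) : Anisotropic 𝒢 V := by
  obtain ⟨hD, -, hss, hcom⟩ := h
  intro U hU hU0 hst
  have hnd : ∀ x ∈ transcendental W V, (∀ y ∈ transcendental W V, lform W V 1 0 x y = 0) →
      x = 0 := by
    intro x hx hxy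
    have h1 := TH125.Gal.trans_nondeg hD ⟨x, hx⟩ fun b => by
      have h2 := hxy b b.2
      rw [lform_apply, pow_zero, one_mul] at h2
      exact h2
    exact congrArg Subtype.val h1
  have hcom' : HasCommutant (transcendental W V) (fun x y => lform W V 1 0 x y)
      (operatorsOf 𝒢 V) P Q := by
    have h1 : (fun x y => lform W V 1 0 x y) = fun a b => W.tr V (a * b) := by
      funext x y
      rw [lform_apply, pow_zero, one_mul]
    rw [h1]
    exact hcom
  obtain ⟨x, hx, y, hy, hxy⟩ := pairs_of_commutant (B := lform W V 1 0) hP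
    (fun c hc => operators_add (𝒢 := 𝒢) c hc) hnd hss hcom' hloc hU hU0 hst
  rw [lform_apply, pow_zero, one_mul] at hxy
  obtain ⟨θ, hθ, h1⟩ := exists_corr (θ := LinearMap.id) (KOp.id V) hxy
  exact ⟨θ, hθ, x, hx, y, hy, h1⟩

/-- **The conjectures D and B for one theory.** -/
theorem standard_of_local {J : Type} {V : J → 𝒱.Obj} {P Q : J → ℚ[X]}
    (hP : ∀ j, Squarefree (P j)) (hloc : ∀ j, LocallyConjugate W.K (P j) (Q j))
    (hV : ∀ j, IsAbelianWith 𝒢 (V j) (P j) (Q j) ∨ IsGeneralWith 𝒢 (V j) (P j) (Q j))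
    {𝒴 : Set 𝒱.Obj} (h𝒴 : ∀ Y, IsProductOf 𝒴 Y → HomEqNum W Y) :
    StandardFor W (Set.range V ∪ 𝒴) := by
  set R1 : Set 𝒱.Obj := {X | ∃ j, V j = X ∧ IsGeneralWith 𝒢 (V j) (P j) (Q j)} with hR1
  set R2 : Set 𝒱.Obj := {X | ∃ j, V j = X ∧ IsAbelianWith 𝒢 (V j) (P j) (Q j)} with hR2
  have h1 : ∀ Z, IsProductOf (R1 ∪ 𝒴) Z → HomEqNum W Z := fun Z hZ =>
    homEqNum_of_anisotropic (𝒢 := 𝒢)
      (by rintro X ⟨j, rfl, h⟩; exact h.1)
      (by rintro X ⟨j, rfl, h⟩; exact h.2.1)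
      (by rintro X ⟨j, rfl, h⟩; exact anisotropic (hP j) (hloc j) h) h𝒴 hZ
  have h2 : ∀ Z, IsProductOf (R2 ∪ (R1 ∪ 𝒴)) Z → HomEqNum W Z := fun Z hZ =>
    homEqNum_of_anisotropicOne (𝒢 := 𝒢)
      (by rintro X ⟨j, rfl, h⟩; exact (anisotropicOne (hP j) (hloc j) h).1)
      (by rintro X ⟨j, rfl, h⟩; exact (anisotropicOne (hP j) (hloc j) h).2) h1 hZ
  have h3 : Set.range V ∪ 𝒴 ⊆ R2 ∪ (R1 ∪ 𝒴) := by
    rintro X (⟨j, rfl⟩ | hX)
    · rcases hV j with h | h
      · exact Or.inl ⟨j, rfl, h⟩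
      · exact Or.inr (Or.inl ⟨j, rfl, h⟩)
    · exact Or.inr (Or.inr hX)
  exact fun Z hZ U g hg => standard_of_products
    (fun Z hZ => h2 Z (isProductOf_mono h3 hZ)) Z hZ U g hg

end Pool.Agent.Helper8K9.AV0
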