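import Pool.Agent.Helper8K9.AV.Defs
import Pool.Agent.Helper8K9.AV.Geo

/-!
# Comparison of definitions
-/

set_option autoImplicit false

open CategoryTheory AlgebraicGeometry Polynomial

universe u v

namespace Pool.Agent.Helper8K9.AV

open Pool.Agent.H914 Pool.Agent.H914.VarClass Pool.Agent.H914.VarClass.Obj
  Pool.Agent.H914.WeilCohomology Pool.Agent.H281R3.HT

variable {k : Type u} [Field k] {𝒱 : VarClass k} {ops : CycleOps 𝒱} {W : WeilCohomology.{u, v} ops}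

/-- The symmetry in the sense of the starting files. -/
def Symmetry.old (S : Symmetry W) : R908.Symmetry W where
  σ := S.σ
  c := S.c
  sim X := ⟨(S.similar X).ne_zero, (S.similar X).gr, (S.similar X).tr⟩
  monoidal X Y := ⟨S.fst X Y, S.snd X Y⟩
  cycles X := S.cycles X

theorem operators_eq (𝒢 : Set (Symmetry W)) (V : 𝒱.Obj) :
    allOperators 𝒢 V = AV0.operatorsOf (Symmetry.old '' 𝒢) V := by
  ext c
  constructor
  · rintro (⟨z, ⟨z', hz', rfl⟩, rfl⟩ | ⟨S, hS, rfl⟩)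
    · exact Or.inl ⟨z', hz', rfl⟩
    · exact Or.inr ⟨S.old, ⟨S, hS, rfl⟩, rfl⟩
  · rintro (⟨z, hz, rfl⟩ | ⟨_, ⟨S, hS, rfl⟩, rfl⟩)
    · exact Or.inl ⟨_, ⟨z, hz, rfl⟩, rfl⟩
    · exact Or.inr ⟨S, hS, rfl⟩

theorem IsAdmissible.old {𝒢 : Set (Symmetry W)} {V : 𝒱.Obj} {P Q : ℚ[X]}
    (h : IsAdmissible 𝒢 V P Q) :
    AV0.IsAbelianWith (Symmetry.old '' 𝒢) V P Q ∨ AV0.IsGeneralWith (Symmetry.old '' 𝒢) V P Q := by
  rcases h with ⟨m, D, hA, h1, h2⟩ | ⟨hD, ⟨γ, hγ, hs⟩, h1, h2⟩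
  · rw [operators_eq] at h1 h2
    refine Or.inl ⟨m, D, ⟨⟨hA.add, hA.gen⟩, hA.divisor, hA.lefschetz, ?_⟩, h1, h2⟩
    rintro _ ⟨S, hS, rfl⟩
    exact hA.scaled S hS
  · rw [operators_eq] at h1 h2
    refine Or.inr ⟨hD, ⟨γ, hγ, hs⟩, h1, ?_⟩
    have h3 : formOf (W.tr V) 1 0 = fun a b => W.tr V (a * b) := by
      funext x y
      rw [formOf, pow_zero, one_mul]
    rw [h3] at h2
    exact h2

end Pool.Agent.Helper8K9.AV
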