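import Pool.Agent.H914R2.DDefs
import Pool.Agent.H914R2.KDefs
import Pool.Agent.Helper8K9.AV.LinDefs

/-!
# Abelian varieties and other varieties over fields with many Galois symmetries: definitions
-/

set_option autoImplicit false

open CategoryTheory AlgebraicGeometry Polynomial

universe u v

namespace Pool.Agent.Helper8K9.AV

open Pool.Agent.H914 Pool.Agent.H914.VarClass Pool.Agent.H914.VarClass.Obj
  Pool.Agent.H914.WeilCohomology

section Linear

variable {K A B : Type*} [Field K] [Ring A] [Algebra K A] [Ring B] [Algebra K B]

/-- The automorphism `σ` preserves the degrees, and multiplies the orientation by the non-zero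
constant `c`. -/
structure IsSimilar (gr : ℕ → Submodule K A) (tr : A →ₗ[K] K) (σ : A ≃ₐ[K] A) (c : K) : Prop where
  ne_zero : c ≠ 0
  gr : ∀ i a, σ a ∈ gr i ↔ a ∈ gr i
  tr : ∀ a, tr (σ a) = c * tr a

/-- The maps `f` and `σ`, `σ'` commute. -/
def CommuteWith (σ : A ≃ₐ[K] A) (σ' : B ≃ₐ[K] B) (f : A →ₐ[K] B) : Prop :=
  ∀ a, f (σ a) = σ' (f a)

/-- The automorphism `σ` preserves the subspaces `N p`. -/
def Preserves (N : ℤ → Submodule K A) (σ : A ≃ₐ[K] A) : Prop :=
  ∀ (p : ℕ) (a : A), σ a ∈ N p ↔ a ∈ N p

/-- The map `f` is the sum of `g` and `h` on the subspace `N`. -/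
def IsSumOn (N : Submodule K A) (f g h : A →ₐ[K] B) : Prop :=
  ∀ x ∈ N, f x = g x + h x

/-- The graded algebra is generated in degree one. -/
def InDegreeOne (gr : ℕ → Submodule K A) : Prop :=
  ∀ i, gr i ≤ gr 1 ^ i

/-- The automorphism `σ` multiplies `x` by a non-zero constant. -/
def Scales (σ : A ≃ₐ[K] A) (x : A) : Prop :=
  ∃ c : K, c ≠ 0 ∧ σ x = c • x

/-- The form `x, y ↦ tr (x ξ ^ n y)`. -/
def formOf (tr : A →ₗ[K] K) (ξ : A) (n : ℕ) (x y : A) : K :=
  tr (x * (ξ ^ n * y))

/-- The operators `F z`, for `z` in `Z`. -/
def operators (F : B → (A →ₗ[K] A)) (Z : Set B) : Set (A → A) :=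
  {e | ∃ z ∈ Z, e = F z}

/-- For some `γ` in `N` the operator `F γ` is multiplication by `(-1) ^ i` on the elements of degree
`i` of the subspace `T`. -/
def HasSign (gr : ℕ → Submodule K A) (T : Submodule K A) (F : B → (A →ₗ[K] A))
    (N : Submodule K B) : Prop :=
  ∃ γ ∈ N, ∀ i, ∀ a ∈ gr i, a ∈ T → F γ a = (-1 : K) ^ i • a

end Linear

variable {k : Type u} [Field k] {𝒱 : VarClass k} {ops : CycleOps 𝒱}

/-- A symmetry of a Weil cohomology theory: a family of automorphisms `σ` of the graded algebras
`H(X)` over the coefficient field `K`, compatible with the two projections of a product, which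
preserves the spaces of `K`-linear combinations of classes of algebraic cycles, and multiplies the
orientation of `X` by a non-zero constant `c X`. For instance all varieties in the class have models
over a subfield `k₀` of `k`, and `σ` is the action of an element of the Galois group of `k₀` on the
`ℓ`-adic cohomology. -/
structure Symmetry (W : WeilCohomology.{u, v} ops) where
  /-- the automorphisms -/
  σ : ∀ X : 𝒱.Obj, W.H X ≃ₐ[W.K] W.H X
  /-- the multipliers -/
  c : 𝒱.Obj → W.K
  similar : ∀ X, IsSimilar (W.gr X) (W.tr X) (σ X) (c X)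
  fst : ∀ X Y : 𝒱.Obj, CommuteWith (σ X) (σ (X.prod Y)) (W.map (fst X Y))
  snd : ∀ X Y : 𝒱.Obj, CommuteWith (σ Y) (σ (X.prod Y)) (W.map (snd X Y))
  cycles : ∀ X, Preserves (spanCycles W X) (σ X)

variable {W : WeilCohomology.{u, v} ops}

/-- The operators on the cohomology of `V` given by the algebraic correspondences of degree `0` and by
the symmetries in `𝒢`. -/
def allOperators (𝒢 : Set (Symmetry W)) (V : 𝒱.Obj) : Set (W.H V → W.H V) :=
  operators (W.corr (X := V) (Y := V)) (algClasses W (V.prod V) V.dim) ∪ {e | ∃ S ∈ 𝒢, e = S.σ V}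

/-- The subspace `N` of the cohomology of `V` is semisimple under the symmetries in `𝒢` and the
correspondences of degree `0`, and for some operator `e` on `N` with `P(e) = 0`, the adjoint of which
for the form `β` is `Q(e)`, the linear operators on `N` that commute with the symmetries and with the
correspondences are polynomials in `e` over the coefficient field. -/
def IsRegular (𝒢 : Set (Symmetry W)) (V : 𝒱.Obj) (N : Submodule W.K (W.H V))
    (β : W.H V → W.H V → W.K) (P Q : ℚ[X]) : Prop :=
  SemisimpleUnder N (allOperators 𝒢 V) ∧ HasCommutant N β (allOperators 𝒢 V) P Q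

/-- The cohomology of `V` has the known properties of the cohomology of an abelian variety with the
addition `m`: the pull-back of `x` in `H^1(V)` by `m` is the sum of the pull-backs by the two
projections, `H^i(V)` is spanned by the products of `i` elements of `H^1(V)`, hard Lefschetz holds for
the divisor `D`, and all symmetries in `𝒢` multiply the class of `D` by a non-zero constant. -/
structure IsAbelian (𝒢 : Set (Symmetry W)) (V : 𝒱.Obj) (m : V.prod V ⟶ V) (D : V.Cycles) :
    Prop where
  add : IsSumOn (W.gr V 1) (W.map m) (W.map (fst V V)) (W.map (snd V V))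
  gen : InDegreeOne (W.gr V)
  divisor : V.IsCyc 1 D
  lefschetz : HardLefschetz W V D
  scaled : ∀ S ∈ 𝒢, Scales (S.σ V) (W.cl V D)

/-- The variety `V` is one of the following.
* An abelian variety, such that `H^1(V)`, with the form `x, y ↦ tr (x D ^ (dim V - 1) y)` for an ample
  divisor `D`, has the property `IsRegular`.
* A variety for which the conjecture D holds, such that the operator `(-1) ^ i` on the transcendental
  cohomology of degree `i` is a combination of correspondences, and such that the transcendental
  cohomology `T(V)` (the orthogonal complement of all algebraic classes), with the cup product form,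
  has the property `IsRegular`. -/
def IsAdmissible (𝒢 : Set (Symmetry W)) (V : 𝒱.Obj) (P Q : ℚ[X]) : Prop :=
  (∃ m D, IsAbelian 𝒢 V m D ∧
    IsRegular 𝒢 V (W.gr V 1) (formOf (W.tr V) (W.cl V D) (V.dim - 1)) P Q) ∨
  (HomEqNum W V ∧
    HasSign (W.gr V) (transcendental W V) (W.corr (X := V) (Y := V))
      (spanCycles W (V.prod V) V.dim) ∧
    IsRegular 𝒢 V (transcendental W V) (formOf (W.tr V) 1 0) P Q)

/-- For **every** set `𝒴` of varieties such that the conjecture D is true for the products of members
of `𝒴`, the conjecture D, and the conjecture B for all divisors with the hard Lefschetz property, are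
true for all varieties `U` with a morphism `g : Z ⟶ U` from a product `Z` of varieties `V j` and of
members of `𝒴`, such that `g^*` is injective on the cohomology (for example `g` surjective). -/
def StandardTimes (W : WeilCohomology.{u, v} ops) {J : Type} (V : J → 𝒱.Obj) : Prop :=
  ∀ 𝒴 : Set 𝒱.Obj, (∀ Z, IsProductOf 𝒴 Z → HomEqNum W Z) →
    ∀ Z, IsProductOf (Set.range V ∪ 𝒴) Z → ∀ (U : 𝒱.Obj) (g : Z ⟶ U),
      Function.Injective (W.map g) →
      HomEqNum W U ∧ ∀ D, U.IsCyc 1 D → HardLefschetz W U D → LefschetzB W U D

end Pool.Agent.Helper8K9.AV
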