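import Pool.Agent.Helper8K9.AV.Conv

/-!
# The standard conjectures for products of abelian varieties and other varieties: the theorems
-/

set_option autoImplicit false

open CategoryTheory AlgebraicGeometry Polynomial

universe u v

namespace Pool.Agent.Helper8K9.AV

open Pool.Agent.H914 Pool.Agent.H914.VarClass Pool.Agent.H914.VarClass.Obj
  Pool.Agent.H914.WeilCohomology Pool.Agent.H281R3.HT Pool.Agent.Helper11K9.Dens

variable {k : Type u} [Field k] {𝒱 : VarClass k} {ops : CycleOps 𝒱} {J : Type}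

theorem main_local {W : WeilCohomology.{u, v} ops} {𝒢 : Set (Symmetry W)} {V : J → 𝒱.Obj}
    {P Q : J → ℚ[X]} (hPQ : ∀ j, IsConjugationPair (P j) (Q j))
    (hV : ∀ j, IsAdmissible 𝒢 (V j) (P j) (Q j))
    (hloc : ∀ j, LocallyConjugate W.K (P j) (Q j)) : StandardTimes W V :=
  fun _ h𝒴 => AV0.standard_of_local (fun j => (hPQ j).1) hloc (fun j => (hV j).old) h𝒴

theorem main_real {W : WeilCohomology.{u, v} ops} {𝒢 : Set (Symmetry W)} {V : J → 𝒱.Obj}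
    {P Q : J → ℚ[X]} (hPQ : ∀ j, IsConjugationPair (P j) (Q j))
    (hV : ∀ j, IsAdmissible 𝒢 (V j) (P j) (Q j))
    (hre : ∀ j (z : ℂ), aeval z (P j) = 0 → z.im = 0) : StandardTimes W V :=
  main_local hPQ hV fun j => local_of_real (hPQ j) (hre j) W.K

theorem main_density [Fintype J] {W : ℕ → WeilCohomology.{u, 0} ops} (𝒢 : ∀ ℓ, Set (Symmetry (W ℓ)))
    {V : J → 𝒱.Obj} {P Q : J → ℚ[X]} (hPQ : ∀ j, IsConjugationPair (P j) (Q j)) (p : ℕ)
    (hV : ∀ (ℓ : ℕ) [Fact ℓ.Prime], ℓ ≠ p → Nonempty ((W ℓ).K ≃+* ℚ_[ℓ]) ∧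
      ∀ j, IsAdmissible (𝒢 ℓ) (V j) (P j) (Q j)) :
    HasLowerDensity {ℓ | StandardTimes (W ℓ) V} ((1 / 2) ^ pairNumber P) :=
  density_conj hPQ p (fun ℓ => (W ℓ).K) (fun ℓ _ hℓ => (hV ℓ hℓ).1) _
    fun ℓ _ hℓ hloc => main_local hPQ (hV ℓ hℓ).2 hloc

end Pool.Agent.Helper8K9.AV
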